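import Pool.Agent.Q267.E8.Stm2

set_option autoImplicit false

/-!
# Project E8, second part: the jobs LG and LM
-/

namespace Pool.Agent.Q265.E8

open Finset Pool.Agent.Q267.CDE Pool.Agent.Q267.MW Pool.Agent.Q267.E8

/-- The recurrence of the sums `∑_{k<n} F_k/(n-k)`. -/
theorem recY {K : Type} [Field K] (F : ℕ → K) (N : ℕ)
    (hF : ∀ k, k < N → 4 * ((k : K) + 1) ^ 2 * F (k + 1) = (2 * k + 1) ^ 2 * F k)
    (h1 : ∀ k, k < N → (k : K) + 1 ≠ 0) (n : ℕ) (hn : n < N) :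
    4 * ((n : K) + 1) ^ 2 * ∑ k ∈ range (n + 1), F k * (((n + 1 : ℕ) : K) - k)⁻¹ =
      (2 * n + 1) ^ 2 * ∑ k ∈ range n, F k * ((n : K) - k)⁻¹ + 4 * (2 * n + 1) * F n := by
  have hne : ∀ k, k < n → (n : K) - k ≠ 0 := by
    intro k hk
    have h2 := h1 (n - k - 1) (by omega)
    have h3 : ((n - k - 1 : ℕ) : K) + 1 = (n : K) - k := by
      have h4 : ((n - k - 1 : ℕ) : K) + 1 = ((n - k - 1 + 1 : ℕ) : K) := by push_cast; ring
      rw [h4, show n - k - 1 + 1 = n - k by omega, Nat.cast_sub hk.le]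
    rwa [h3] at h2
  have hne' : ∀ k, k ≤ n → ((n + 1 : ℕ) : K) - k ≠ 0 := by
    intro k hk
    have h2 := h1 (n - k) (by omega)
    have h3 : ((n - k : ℕ) : K) + 1 = ((n + 1 : ℕ) : K) - k := by
      rw [Nat.cast_sub hk]; push_cast; ring
    rwa [h3] at h2
  -- first sum
  have e1 : 4 * ((n : K) + 1) ^ 2 * ∑ k ∈ range (n + 1), F k * (((n + 1 : ℕ) : K) - k)⁻¹ =
      ∑ k ∈ range (n + 1), 4 * F k * ((n : K) + 1 + k) +
        ∑ k ∈ range (n + 1), 4 * (k : K) ^ 2 * F k * (((n + 1 : ℕ) : K) - k)⁻¹ := by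
    rw [mul_sum, ← sum_add_distrib]
    refine sum_congr rfl fun k hk => ?_
    have h2 := hne' k (by simpa [Nat.lt_succ_iff] using hk)
    have h3 : ((n : K) + 1) ^ 2 * (((n + 1 : ℕ) : K) - k)⁻¹ =
        ((n : K) + 1 + k) + (k : K) ^ 2 * (((n + 1 : ℕ) : K) - k)⁻¹ := by
      have h4 : ((n : K) + 1 + k) = ((n : K) + 1 + k) * (((n + 1 : ℕ) : K) - k) *
          (((n + 1 : ℕ) : K) - k)⁻¹ := by
        rw [mul_assoc, mul_inv_cancel₀ h2, mul_one]
      rw [h4]
      push_cast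
      ring
    linear_combination (4 * F k) * h3
  have e2 : ∑ k ∈ range (n + 1), 4 * (k : K) ^ 2 * F k * (((n + 1 : ℕ) : K) - k)⁻¹ =
      ∑ k ∈ range n, (2 * (k : K) + 1) ^ 2 * F k * ((n : K) - k)⁻¹ := by
    rw [sum_range_succ']
    simp only [Nat.cast_zero]
    rw [show 4 * (0 : K) ^ 2 * F 0 * (((n + 1 : ℕ) : K) - 0)⁻¹ = 0 by ring, add_zero]
    refine sum_congr rfl fun k hk => ?_
    rw [show ((n + 1 : ℕ) : K) - ((k + 1 : ℕ) : K) = (n : K) - k by push_cast; ring]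
    have h2 := hF k (by have := mem_range.1 hk; omega)
    rw [← h2]
    push_cast
    ring
  have e3 : (2 * (n : K) + 1) ^ 2 * ∑ k ∈ range n, F k * ((n : K) - k)⁻¹ =
      ∑ k ∈ range n, 4 * F k * ((n : K) + 1 + k) +
        ∑ k ∈ range n, (2 * (k : K) + 1) ^ 2 * F k * ((n : K) - k)⁻¹ := by
    rw [mul_sum, ← sum_add_distrib]
    refine sum_congr rfl fun k hk => ?_
    have h2 := hne k (mem_range.1 hk)
    have h3 : (2 * (n : K) + 1) ^ 2 * ((n : K) - k)⁻¹ =
        4 * ((n : K) + 1 + k) + (2 * (k : K) + 1) ^ 2 * ((n : K) - k)⁻¹ := by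
      have h4 : 4 * ((n : K) + 1 + k) = 4 * ((n : K) + 1 + k) * ((n : K) - k) *
          ((n : K) - k)⁻¹ := by
        rw [mul_assoc, mul_inv_cancel₀ h2, mul_one]
      rw [h4]
      ring
    linear_combination F k * h3
  rw [e1, e2, e3, sum_range_succ (fun k => 4 * F k * ((n : K) + 1 + k))]
  ring

/-- Job LG. -/
theorem lg : S_LG := by
  intro K _ F n h2 h0 hF h1 h3
  induction n with
  | zero => simp
  | succ n ih =>
    have ih' := ih (fun k hk => hF k (by omega)) (fun k hk => h1 k (by omega))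
      (fun k hk => h3 k (by omega))
    have hr := recY F (n + 1) hF h1 n (by omega)
    have hn := h1 n (by omega)
    have ho := h3 n (by omega)
    have hs := hF n (by omega)
    have h4 : (4 : K) * ((n : K) + 1) ^ 2 ≠ 0 := by
      refine mul_ne_zero ?_ (pow_ne_zero 2 hn)
      rw [show (4 : K) = 2 * 2 by norm_num]
      exact mul_ne_zero h2 h2
    apply mul_left_cancel₀ h4
    rw [hr, ih', sum_range_succ]
    have h5 : (2 * (n : K) + 1) * (2 * (n : K) + 1)⁻¹ = 1 := mul_inv_cancel₀ ho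
    linear_combination (-4 * (∑ x ∈ range n, (2 * (x : K) + 1)⁻¹ + (2 * (n : K) + 1)⁻¹)) * hs -
      (4 * (2 * (n : K) + 1) * F n) * h5

/-- The squares of the binomial coefficients modulo `p = 2 m + 1`. -/
theorem stepF (p m : ℕ) [Fact p.Prime] (hp : p = 2 * m + 1) (k : ℕ) :
    4 * ((k : ZMod p) + 1) ^ 2 * ((m.choose (k + 1) : ℕ) : ZMod p) ^ 2 =
      (2 * (k : ZMod p) + 1) ^ 2 * ((m.choose k : ℕ) : ZMod p) ^ 2 := by
  rcases Nat.lt_or_ge m k with h | h
  · rw [Nat.choose_eq_zero_of_lt h, Nat.choose_eq_zero_of_lt (by omega)]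
    simp
  · have h1 : ((m.choose (k + 1) : ℕ) : ZMod p) * ((k : ZMod p) + 1) =
        ((m.choose k : ℕ) : ZMod p) * ((m : ZMod p) - k) := by
      have h2 := Nat.choose_succ_right_eq m k
      have h3 := congrArg (fun x : ℕ => (x : ZMod p)) h2
      simpa [Nat.cast_sub h] using h3
    have h4 : (2 * (m : ZMod p) + 1) = 0 := by
      have h5 : ((2 * m + 1 : ℕ) : ZMod p) = 0 := by rw [← hp]; exact ZMod.natCast_self p
      push_cast at h5
      exact h5
    have h6 : 2 * (((m.choose (k + 1) : ℕ) : ZMod p) * ((k : ZMod p) + 1)) =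
        -((2 * (k : ZMod p) + 1) * ((m.choose k : ℕ) : ZMod p)) := by
      linear_combination 2 * h1 + ((m.choose k : ℕ) : ZMod p) * h4
    calc 4 * ((k : ZMod p) + 1) ^ 2 * ((m.choose (k + 1) : ℕ) : ZMod p) ^ 2
        = (2 * (((m.choose (k + 1) : ℕ) : ZMod p) * ((k : ZMod p) + 1))) ^ 2 := by ring
      _ = (2 * (k : ZMod p) + 1) ^ 2 * ((m.choose k : ℕ) : ZMod p) ^ 2 := by rw [h6]; ring

/-- Job LM. -/
theorem lm : S_LM := by
  intro p m n hpp hp hmn hnp
  have hprime : p.Prime := hpp.out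
  set F : ℕ → ZMod p := fun k => ((m.choose k : ℕ) : ZMod p) ^ 2 with hFdef
  have hz : ∀ k, m < k → F k = 0 := by
    intro k hk
    simp [hFdef, Nat.choose_eq_zero_of_lt hk]
  have h1 : ∀ k, k < p - 1 → (k : ZMod p) + 1 ≠ 0 := by
    intro k hk h
    have h2 : ((k + 1 : ℕ) : ZMod p) = 0 := by push_cast; exact h
    rw [ZMod.natCast_eq_zero_iff] at h2
    have := Nat.le_of_dvd (by omega) h2
    omega
  have h20 : (4 : ZMod p) ≠ 0 := by
    intro h
    have h2 : ((4 : ℕ) : ZMod p) = 0 := by push_cast; exact h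
    rw [ZMod.natCast_eq_zero_iff] at h2
    have h3 : p ∣ 2 ^ 2 := by norm_num; exact h2
    have h5 := Nat.le_of_dvd (by omega) (hprime.dvd_of_dvd_pow h3)
    have h6 := hprime.two_le
    omega
  have h4 : (2 * (m : ZMod p) + 1) = 0 := by
    have h5 : ((2 * m + 1 : ℕ) : ZMod p) = 0 := by rw [← hp]; exact ZMod.natCast_self p
    push_cast at h5
    exact h5
  have hrec := recY F (p - 1) (fun k _ => stepF p m hp k) h1
  -- the full sums vanish
  have key : ∀ j, m + 1 + j < p →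
      ∑ k ∈ range (m + 1 + j), F k * (((m + 1 + j : ℕ) : ZMod p) - k)⁻¹ = 0 := by
    intro j
    induction j with
    | zero =>
      intro hj
      have h5 := hrec m (by omega)
      rw [h4] at h5
      have h6 : (4 : ZMod p) * ((m : ZMod p) + 1) ^ 2 ≠ 0 :=
        mul_ne_zero h20 (pow_ne_zero 2 (h1 m (by omega)))
      have h7 : 4 * ((m : ZMod p) + 1) ^ 2 *
          ∑ k ∈ range (m + 1), F k * (((m + 1 : ℕ) : ZMod p) - k)⁻¹ = 0 := by
        rw [h5]; ring
      exact (mul_eq_zero.1 h7).resolve_left h6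
    | succ j ih =>
      intro hj
      have h5 := hrec (m + 1 + j) (by omega)
      rw [ih (by omega), hz (m + 1 + j) (by omega)] at h5
      have h6 : (4 : ZMod p) * (((m + 1 + j : ℕ) : ZMod p) + 1) ^ 2 ≠ 0 :=
        mul_ne_zero h20 (pow_ne_zero 2 (h1 (m + 1 + j) (by omega)))
      have h7 : 4 * (((m + 1 + j : ℕ) : ZMod p) + 1) ^ 2 *
          ∑ k ∈ range (m + 1 + j + 1), F k * (((m + 1 + j + 1 : ℕ) : ZMod p) - k)⁻¹ = 0 := by
        rw [h5]; ring
      exact (mul_eq_zero.1 h7).resolve_left h6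
  have h8 := key (n - (m + 1)) (by omega)
  rw [show m + 1 + (n - (m + 1)) = n by omega] at h8
  rw [← h8]
  refine sum_subset (fun k hk => ?_) (fun k _ hk => ?_)
  · rw [mem_range] at hk ⊢; omega
  · rw [mem_range, not_lt] at hk
    have h9 := hz k (by omega)
    simp only [hFdef] at h9 ⊢
    rw [h9, zero_mul]

end Pool.Agent.Q265.E8
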